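import Pool.Agent.Helper38.ZS.Stmts

/-!
# Zonotope signing, module 3: the minimal partition
-/

namespace Pool.Agent.Helper55.ZS

open Finset Pool.Agent.Helper38.ZS
open scoped Classical

noncomputable section

variable {ι : Type} [Fintype ι]

omit [Fintype ι] in
lemma rs_union {X Y : Finset ι} (hXY : Disjoint X Y) (g : ι → ℝ) (i : ι) :
    rs (X ∪ Y) g i = rs X g i + rs Y g i := by
  unfold rs
  by_cases hX : i ∈ X
  · have hY : i ∉ Y := Finset.disjoint_left.mp hXY hX
    simp [hX, hY]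
  · by_cases hY : i ∈ Y
    · simp [hX, hY]
    · simp [hX, hY]

lemma ap_add (P : ι → ι → ℝ) (x y : ι → ℝ) (i : ι) :
    ap P (fun j => x j + y j) i = ap P x i + ap P y i := by
  unfold ap
  rw [← Finset.sum_add_distrib]
  exact Finset.sum_congr rfl (fun j _ => by ring)

lemma sum_rs_mul (X : Finset ι) (g h : ι → ℝ) :
    ∑ i, rs X g i * h i = ∑ i ∈ X, g i * h i := by
  unfold rs
  rw [← Finset.sum_filter_add_sum_filter_not univ (fun i => i ∈ X)]
  have h1 : ∑ i ∈ univ.filter (fun i => i ∈ X), (if i ∈ X then g i else 0) * h i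
      = ∑ i ∈ X, g i * h i := by
    rw [show univ.filter (fun i => i ∈ X) = X from by ext; simp]
    exact Finset.sum_congr rfl (fun i hi => by simp [hi])
  have h2 : ∑ i ∈ univ.filter (fun i => ¬ i ∈ X), (if i ∈ X then g i else 0) * h i = 0 := by
    apply Finset.sum_eq_zero
    intro i hi
    have := (Finset.mem_filter.mp hi).2
    simp [this]
  rw [h1, h2, add_zero]

lemma II_eq (P : ι → ι → ℝ) (g : ι → ℝ) (X Y : Finset ι) :
    II P g X Y = ∑ i, rs X g i * ap P (rs Y g) i := by
  rw [sum_rs_mul]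
  unfold II
  apply Finset.sum_congr rfl
  intro i _
  unfold ap
  have h1 : ∑ k, P i k * rs Y g k = ∑ k, rs Y g k * P i k :=
    Finset.sum_congr rfl (fun k _ => by ring)
  rw [h1, sum_rs_mul, Finset.mul_sum]
  exact Finset.sum_congr rfl (fun j _ => by ring)

lemma ap_symm {P : ι → ι → ℝ} (hP : IsPr P) (x y : ι → ℝ) :
    ∑ i, ap P x i * y i = ∑ i, x i * ap P y i := by
  unfold ap
  have h1 : ∑ i, (∑ k, P i k * x k) * y i = ∑ i, ∑ k, P i k * x k * y i :=
    Finset.sum_congr rfl (fun i _ => Finset.sum_mul _ _ _)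
  have h2 : ∑ i, x i * (∑ k, P i k * y k) = ∑ i, ∑ k, x i * (P i k * y k) :=
    Finset.sum_congr rfl (fun i _ => Finset.mul_sum _ _ _)
  rw [h1, h2, Finset.sum_comm]
  apply Finset.sum_congr rfl
  intro i _
  apply Finset.sum_congr rfl
  intro k _
  rw [hP.symm k i]
  ring

lemma ap_ap {P : ι → ι → ℝ} (hP : IsPr P) (x : ι → ℝ) (i : ι) :
    ap P (ap P x) i = ap P x i := by
  unfold ap
  have h1 : ∑ k, P i k * (∑ l, P k l * x l) = ∑ k, ∑ l, P i k * P k l * x l := by
    apply Finset.sum_congr rfl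
    intro k _
    rw [Finset.mul_sum]
    exact Finset.sum_congr rfl (fun l _ => by ring)
  rw [h1, Finset.sum_comm]
  apply Finset.sum_congr rfl
  intro l _
  rw [← Finset.sum_mul, hP.idem]

lemma ap_inner {P : ι → ι → ℝ} (hP : IsPr P) (x y : ι → ℝ) :
    ∑ i, ap P x i * ap P y i = ∑ i, x i * ap P y i := by
  rw [ap_symm hP]
  exact Finset.sum_congr rfl (fun i _ => by rw [ap_ap hP])

lemma DD_union {P : ι → ι → ℝ} (hP : IsPr P) (g : ι → ℝ) {X Y : Finset ι} (hXY : Disjoint X Y) :
    DD P g (X ∪ Y) = DD P g X + DD P g Y - 2 * II P g X Y := by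
  have h0 : rs (X ∪ Y) g = fun i => rs X g i + rs Y g i := funext (fun i => rs_union hXY g i)
  set a := rs X g with ha
  set b := rs Y g with hb
  have hab : ∑ i, a i * b i = 0 := by
    apply Finset.sum_eq_zero
    intro i _
    rw [ha, hb]
    unfold rs
    by_cases hX : i ∈ X
    · have hY : i ∉ Y := Finset.disjoint_left.mp hXY hX
      simp [hY]
    · simp [hX]
  have hII : II P g X Y = ∑ i, a i * ap P b i := II_eq P g X Y
  have e1 : ∑ i, ap P a i * b i = ∑ i, a i * ap P b i := ap_symm hP a b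
  have e2 : ∑ i, ap P a i * ap P b i = ∑ i, a i * ap P b i := ap_inner hP a b
  unfold DD
  rw [h0, hII, ← ha, ← hb]
  have h1 : ∀ i, ((fun i => a i + b i) i - ap P (fun i => a i + b i) i) ^ 2
      = (a i - ap P a i) ^ 2 + (b i - ap P b i) ^ 2
        + 2 * (a i * b i - a i * ap P b i - ap P a i * b i + ap P a i * ap P b i) := by
    intro i
    rw [ap_add]
    ring
  rw [Finset.sum_congr rfl (fun i _ => h1 i), Finset.sum_add_distrib, Finset.sum_add_distrib,
    ← Finset.mul_sum, Finset.sum_add_distrib, Finset.sum_sub_distrib, Finset.sum_sub_distrib,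
    hab, e1, e2]
  ring

lemma DD_nonneg (P : ι → ι → ℝ) (g : ι → ℝ) (X : Finset ι) : 0 ≤ DD P g X :=
  Finset.sum_nonneg (fun _ _ => sq_nonneg _)

/-- concavity gain -/
lemma rpow_gain (x y : ℝ) (hx : 0 < x) (hxy : x ≤ y) :
    (1 / 20 : ℝ) * x ^ (19 / 20 : ℝ)
      ≤ x ^ (19 / 20 : ℝ) + y ^ (19 / 20 : ℝ) - (x + y) ^ (19 / 20 : ℝ) := by
  have hy : 0 < y := lt_of_lt_of_le hx hxy
  have ht : 0 < x / y := div_pos hx hy
  have ht1 : x / y ≤ 1 := (div_le_one hy).mpr hxy
  have h1 : (x + y) ^ (19 / 20 : ℝ) = y ^ (19 / 20 : ℝ) * (1 + x / y) ^ (19 / 20 : ℝ) := by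
    rw [← Real.mul_rpow hy.le (by linarith)]
    congr 1
    field_simp
    ring
  have h2 : (1 + x / y) ^ (19 / 20 : ℝ) ≤ 1 + (19 / 20 : ℝ) * (x / y) :=
    rpow_one_add_le_one_add_mul_self (by linarith) (by norm_num) (by norm_num)
  have h3 : x / y ≤ (x / y) ^ (19 / 20 : ℝ) := by
    have := Real.rpow_le_rpow_of_exponent_ge ht ht1 (by norm_num : (19 / 20 : ℝ) ≤ 1)
    rwa [Real.rpow_one] at this
  have hyp : 0 < y ^ (19 / 20 : ℝ) := Real.rpow_pos_of_pos hy _
  have h4 : y ^ (19 / 20 : ℝ) * (x / y) ^ (19 / 20 : ℝ) = x ^ (19 / 20 : ℝ) := by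
    rw [← Real.mul_rpow hy.le ht.le]
    congr 1
    field_simp
  have h5 : y ^ (19 / 20 : ℝ) * (x / y) ≤ x ^ (19 / 20 : ℝ) := by
    rw [← h4]
    exact mul_le_mul_of_nonneg_left h3 hyp.le
  have h6 : (x + y) ^ (19 / 20 : ℝ) ≤ y ^ (19 / 20 : ℝ) * (1 + (19 / 20 : ℝ) * (x / y)) := by
    rw [h1]
    exact mul_le_mul_of_nonneg_left h2 hyp.le
  nlinarith [h5, h6]

lemma gain_min (x y : ℝ) (hx : 0 < x) (hy : 0 < y) :
    (1 / 20 : ℝ) * (min x y) ^ (19 / 20 : ℝ)
      ≤ x ^ (19 / 20 : ℝ) + y ^ (19 / 20 : ℝ) - (x + y) ^ (19 / 20 : ℝ) := by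
  rcases le_total x y with h | h
  · rw [min_eq_left h]
    exact rpow_gain x y hx h
  · rw [min_eq_right h]
    have := rpow_gain y x hy h
    rw [add_comm x y]
    linarith

omit [Fintype ι] in
lemma nu_ge {g : ι → ℝ} {X : Finset ι} {γ : ℝ} (hγ : 0 < γ) (hγ1 : γ ≤ 1)
    (hX : X.Nonempty) (hg : ∀ i ∈ X, γ ≤ |g i|) : γ ≤ nu g X := by
  obtain ⟨i, hi⟩ := hX
  unfold nu
  have h1 : |g i| ^ (19 / 20 : ℝ) ≤ ∑ j ∈ X, |g j| ^ (19 / 20 : ℝ) :=
    Finset.single_le_sum (f := fun j => |g j| ^ (19 / 20 : ℝ))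
      (fun j _ => Real.rpow_nonneg (abs_nonneg _) _) hi
  have h2 : γ ^ (19 / 20 : ℝ) ≤ |g i| ^ (19 / 20 : ℝ) :=
    Real.rpow_le_rpow hγ.le (hg i hi) (by norm_num)
  have h3 : γ ≤ γ ^ (19 / 20 : ℝ) := by
    have := Real.rpow_le_rpow_of_exponent_ge hγ hγ1 (by norm_num : (19 / 20 : ℝ) ≤ 1)
    rwa [Real.rpow_one] at this
  linarith

omit [Fintype ι] in
lemma nu_union {g : ι → ℝ} {X Y : Finset ι} (hXY : Disjoint X Y) :
    nu g (X ∪ Y) = nu g X + nu g Y := by
  unfold nu
  exact Finset.sum_union hXY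

/-- valid families -/
def Val (G : Finset ι) (Q : Finset (Finset ι)) : Prop :=
  (∀ Z ∈ Q, Z.Nonempty) ∧ (∀ Z ∈ Q, ∀ Y ∈ Q, Z ≠ Y → Disjoint Z Y) ∧ Q.biUnion id = G

theorem st_PART : ST_PART := by
  intro ι _ P g G γ κ hP hγ hγ1 hκ hg
  set F : Finset ι → ℝ := fun Z => DD P g Z - 40 * κ * (nu g Z) ^ (19 / 20 : ℝ) with hF
  have hne : (univ.filter (fun Q : Finset (Finset ι) => Val G Q)).Nonempty := by
    by_cases hG : G = ∅
    · refine ⟨∅, Finset.mem_filter.mpr ⟨Finset.mem_univ _, ?_⟩⟩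
      refine ⟨by simp, by simp, ?_⟩
      rw [hG]
      simp
    · refine ⟨{G}, Finset.mem_filter.mpr ⟨Finset.mem_univ _, ?_⟩⟩
      refine ⟨?_, ?_, ?_⟩
      · intro Z hZ
        rw [Finset.mem_singleton.mp hZ]
        exact Finset.nonempty_iff_ne_empty.mpr hG
      · intro Z hZ Y hY hZY
        exact absurd ((Finset.mem_singleton.mp hZ).trans (Finset.mem_singleton.mp hY).symm) hZY
      · rw [Finset.singleton_biUnion]
        rfl
  obtain ⟨Q, hQ, hmin⟩ := Finset.exists_min_image _ (fun Q => ∑ Z ∈ Q, F Z) hne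
  obtain ⟨hQ1, hQ2, hQ3⟩ := (Finset.mem_filter.mp hQ).2
  have hsub : ∀ Z ∈ Q, Z ⊆ G := by
    intro Z hZ
    rw [← hQ3]
    exact Finset.subset_biUnion_of_mem id hZ
  refine ⟨Q, hQ1, hQ2, hQ3, ?_, ?_⟩
  · -- weak linking
    intro Z hZ X hXZ hX hXne
    set Y := Z \ X with hYdef
    have hY : Y.Nonempty := by
      rw [hYdef, Finset.sdiff_nonempty]
      intro hcon
      exact hXne (Finset.Subset.antisymm hXZ hcon)
    have hXY : Disjoint X Y := Finset.disjoint_sdiff
    have hZu : Z = X ∪ Y := by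
      rw [hYdef, Finset.union_sdiff_of_subset hXZ]
    have hYZ : Y ⊆ Z := Finset.sdiff_subset
    have hXQ : X ∉ insert Y (Q.erase Z) := by
      intro hcon
      rcases Finset.mem_insert.mp hcon with h | h
      · rw [h] at hXY
        rw [disjoint_self] at hXY
        rw [hXY] at hY
        exact Finset.not_nonempty_empty hY
      · obtain ⟨h1, h2⟩ := Finset.mem_erase.mp h
        have h3 := hQ2 X h2 Z hZ h1
        have h4 : X = ∅ := by
          have := Finset.disjoint_of_subset_right hXZ h3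
          exact disjoint_self.mp this
        rw [h4] at hX
        exact Finset.not_nonempty_empty hX
    have hYQ : Y ∉ Q.erase Z := by
      intro h
      obtain ⟨h1, h2⟩ := Finset.mem_erase.mp h
      have h3 := hQ2 Y h2 Z hZ h1
      have h4 : Y = ∅ := by
        have := Finset.disjoint_of_subset_right hYZ h3
        exact disjoint_self.mp this
      rw [h4] at hY
      exact Finset.not_nonempty_empty hY
    have hval : Val G (insert X (insert Y (Q.erase Z))) := by
      refine ⟨?_, ?_, ?_⟩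
      · intro W hW
        rcases Finset.mem_insert.mp hW with h | h
        · rw [h]; exact hX
        · rcases Finset.mem_insert.mp h with h | h
          · rw [h]; exact hY
          · exact hQ1 W (Finset.mem_of_mem_erase h)
      · have key : ∀ W ∈ Q.erase Z, Disjoint Z W := by
          intro W hW
          obtain ⟨h1, h2⟩ := Finset.mem_erase.mp hW
          exact hQ2 Z hZ W h2 (Ne.symm h1)
        intro W hW W' hW' hWW
        rcases Finset.mem_insert.mp hW with h | h
        · rcases Finset.mem_insert.mp hW' with h' | h'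
          · exact absurd (h.trans h'.symm) hWW
          · rcases Finset.mem_insert.mp h' with h' | h'
            · rw [h, h']; exact hXY
            · rw [h]; exact Finset.disjoint_of_subset_left hXZ (key W' h')
        · rcases Finset.mem_insert.mp h with h | h
          · rcases Finset.mem_insert.mp hW' with h' | h'
            · rw [h, h']; exact hXY.symm
            · rcases Finset.mem_insert.mp h' with h' | h'
              · exact absurd (h.trans h'.symm) hWW
              · rw [h]; exact Finset.disjoint_of_subset_left hYZ (key W' h')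
          · rcases Finset.mem_insert.mp hW' with h' | h'
            · rw [h']; exact (Finset.disjoint_of_subset_left hXZ (key W h)).symm
            · rcases Finset.mem_insert.mp h' with h' | h'
              · rw [h']; exact (Finset.disjoint_of_subset_left hYZ (key W h)).symm
              · exact hQ2 W (Finset.mem_of_mem_erase h) W' (Finset.mem_of_mem_erase h') hWW
      · rw [Finset.biUnion_insert, Finset.biUnion_insert, ← hQ3]
        have h1 : Q.biUnion id = Z ∪ (Q.erase Z).biUnion id := by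
          conv_lhs => rw [← Finset.insert_erase hZ]
          rw [Finset.biUnion_insert]
          rfl
        rw [h1]
        simp only [id]
        rw [← Finset.union_assoc, ← hZu]
    have hm := hmin _ (Finset.mem_filter.mpr ⟨Finset.mem_univ _, hval⟩)
    rw [Finset.sum_insert hXQ, Finset.sum_insert hYQ] at hm
    have h1 : ∑ W ∈ Q, F W = F Z + ∑ W ∈ Q.erase Z, F W := (Finset.add_sum_erase Q F hZ).symm
    rw [h1] at hm
    have h2 : F Z ≤ F X + F Y := by linarith
    have h3 : DD P g Z = DD P g X + DD P g Y - 2 * II P g X Y := by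
      conv_lhs => rw [hZu]
      exact DD_union hP g hXY
    have h4 : nu g Z = nu g X + nu g Y := by
      conv_lhs => rw [hZu]
      exact nu_union hXY
    have hgX : 0 < nu g X := lt_of_lt_of_le hγ
      (nu_ge hγ hγ1 hX (fun i hi => hg i (hsub Z hZ (hXZ hi))))
    have hgY : 0 < nu g Y := lt_of_lt_of_le hγ
      (nu_ge hγ hγ1 hY (fun i hi => hg i (hsub Z hZ (hYZ hi))))
    have h5 := gain_min (nu g X) (nu g Y) hgX hgY
    simp only [hF] at h2
    rw [h3, h4] at h2
    have h6 : 40 * κ * ((1 / 20 : ℝ) * (min (nu g X) (nu g Y)) ^ (19 / 20 : ℝ))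
        ≤ 40 * κ * ((nu g X) ^ (19 / 20 : ℝ) + (nu g Y) ^ (19 / 20 : ℝ)
          - (nu g X + nu g Y) ^ (19 / 20 : ℝ)) :=
      mul_le_mul_of_nonneg_left h5 (by positivity)
    linarith
  · -- total defect
    have hcomp : ∑ Z ∈ Q, F Z ≤ DD P g G := by
      by_cases hG : G = ∅
      · have hv : Val G (∅ : Finset (Finset ι)) := by
          refine ⟨by simp, by simp, ?_⟩
          rw [hG]
          simp
        have := hmin _ (Finset.mem_filter.mpr ⟨Finset.mem_univ _, hv⟩)
        rw [Finset.sum_empty] at this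
        exact this.trans (DD_nonneg P g G)
      · have hv : Val G ({G} : Finset (Finset ι)) := by
          refine ⟨?_, ?_, ?_⟩
          · intro Z hZ
            rw [Finset.mem_singleton.mp hZ]
            exact Finset.nonempty_iff_ne_empty.mpr hG
          · intro Z hZ Y hY hZY
            exact absurd ((Finset.mem_singleton.mp hZ).trans (Finset.mem_singleton.mp hY).symm) hZY
          · rw [Finset.singleton_biUnion]
            rfl
        have h1 := hmin _ (Finset.mem_filter.mpr ⟨Finset.mem_univ _, hv⟩)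
        rw [Finset.sum_singleton] at h1
        refine h1.trans ?_
        simp only [hF]
        have h2 : 0 ≤ 40 * κ * (nu g G) ^ (19 / 20 : ℝ) := by
          have : 0 ≤ (nu g G) ^ (19 / 20 : ℝ) := Real.rpow_nonneg
            (Finset.sum_nonneg (fun i _ => Real.rpow_nonneg (abs_nonneg _) _)) _
          positivity
        linarith
    have hnu : ∑ Z ∈ Q, nu g Z = nu g G := by
      unfold nu
      rw [← hQ3, Finset.sum_biUnion]
      · rfl
      · intro Z hZ Y hY hZY
        exact hQ2 Z hZ Y hY hZY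
    have hpt : ∀ Z ∈ Q, (nu g Z) ^ (19 / 20 : ℝ) ≤ nu g Z / γ := by
      intro Z hZ
      have h1 : γ ≤ nu g Z := nu_ge hγ hγ1 (hQ1 Z hZ) (fun i hi => hg i (hsub Z hZ hi))
      have h2 : 0 < nu g Z := lt_of_lt_of_le hγ h1
      rw [le_div_iff₀ hγ]
      rcases le_or_gt 1 (nu g Z) with h | h
      · have h3 : (nu g Z) ^ (19 / 20 : ℝ) ≤ (nu g Z) ^ (1 : ℝ) :=
          Real.rpow_le_rpow_of_exponent_le h (by norm_num)
        rw [Real.rpow_one] at h3
        have h4 : (0 : ℝ) ≤ (nu g Z) ^ (19 / 20 : ℝ) := Real.rpow_nonneg h2.le _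
        nlinarith
      · have h3 : (nu g Z) ^ (19 / 20 : ℝ) ≤ 1 := Real.rpow_le_one h2.le h.le (by norm_num)
        nlinarith
    have h1 : ∑ Z ∈ Q, DD P g Z = ∑ Z ∈ Q, F Z + 40 * κ * ∑ Z ∈ Q, (nu g Z) ^ (19 / 20 : ℝ) := by
      simp only [hF]
      rw [Finset.sum_sub_distrib, Finset.mul_sum]
      ring
    have h2 : ∑ Z ∈ Q, (nu g Z) ^ (19 / 20 : ℝ) ≤ nu g G / γ := by
      rw [← hnu, Finset.sum_div]
      exact Finset.sum_le_sum hpt
    have h3 : 40 * κ * ∑ Z ∈ Q, (nu g Z) ^ (19 / 20 : ℝ) ≤ 40 * κ * (nu g G / γ) :=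
      mul_le_mul_of_nonneg_left h2 (by positivity)
    have h4 : 40 * κ / γ * nu g G = 40 * κ * (nu g G / γ) := by ring
    rw [h1, h4]
    linarith

end

end Pool.Agent.Helper55.ZS
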