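import Pool.Agent.Helper38.ZS.Norm

/-!
# Zonotope signing, module 4: a bad vector has a bad piece
-/

namespace Pool.Agent.Helper55.ZS

open Finset Pool.Agent.Helper38.ZS
open scoped Classical

noncomputable section

/-- sums over a partition -/
lemma sum_pieces {ι : Type} {Q : Finset (Finset ι)} {G : Finset ι}
    (hQ2 : ∀ Z ∈ Q, ∀ Y ∈ Q, Z ≠ Y → Disjoint Z Y) (hQ3 : Q.biUnion id = G) (φ : ι → ℝ) :
    ∑ Z ∈ Q, ∑ i ∈ Z, φ i = ∑ i ∈ G, φ i := by
  rw [← hQ3, Finset.sum_biUnion]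
  · rfl
  · intro Z hZ Y hY hZY
    exact hQ2 Z hZ Y hY hZY

lemma sum_pieces_inter {ι : Type} {Q : Finset (Finset ι)} {G : Finset ι} (V : Finset ι)
    (hQ2 : ∀ Z ∈ Q, ∀ Y ∈ Q, Z ≠ Y → Disjoint Z Y) (hQ3 : Q.biUnion id = G) (φ : ι → ℝ) :
    ∑ Z ∈ Q, ∑ i ∈ Z ∩ V, φ i = ∑ i ∈ G ∩ V, φ i := by
  have h1 : ∀ Z : Finset ι, ∑ i ∈ Z ∩ V, φ i = ∑ i ∈ Z, (if i ∈ V then φ i else 0) := by
    intro Z
    rw [← Finset.filter_mem_eq_inter, Finset.sum_filter]
  simp only [h1]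
  exact sum_pieces hQ2 hQ3 _

lemma sum_pieces_sdiff {ι : Type} {Q : Finset (Finset ι)} {G : Finset ι} (V : Finset ι)
    (hQ2 : ∀ Z ∈ Q, ∀ Y ∈ Q, Z ≠ Y → Disjoint Z Y) (hQ3 : Q.biUnion id = G) (φ : ι → ℝ) :
    ∑ Z ∈ Q, ∑ i ∈ Z \ V, φ i = ∑ i ∈ G \ V, φ i := by
  have h1 : ∀ Z : Finset ι, ∑ i ∈ Z \ V, φ i = ∑ i ∈ Z, (if i ∉ V then φ i else 0) := by
    intro Z
    rw [Finset.sdiff_eq_filter, Finset.sum_filter]
  simp only [h1]
  exact sum_pieces hQ2 hQ3 _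

lemma card_eq_sum {ι : Type} (Z V : Finset ι) (p : ι → Prop) :
    (#((Z ∩ V).filter p) : ℝ) = ∑ i ∈ Z ∩ V, (if p i then (1 : ℝ) else 0) := by
  rw [Finset.card_filter]
  push_cast
  rfl

/-- the defect of the large part of a vector in the range -/
lemma DD_large {ι : Type} [Fintype ι] {P : ι → ι → ℝ} (hP : IsPr P) (g : ι → ℝ)
    (hg : ap P g = g) (G : Finset ι) : DD P g G ≤ ∑ i ∈ Gᶜ, g i ^ 2 := by
  have h1 : ∀ i, rs G g i - ap P (rs G g) i = -(rs Gᶜ g i - ap P (rs Gᶜ g) i) := by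
    intro i
    have h2 : rs G g = fun k => g k - rs Gᶜ g k := by
      funext k
      unfold rs
      by_cases hk : k ∈ G
      · simp [hk]
      · simp [hk]
    rw [h2, ap_sub, hg]
    ring
  have h3 : DD P g G = ∑ i, (rs Gᶜ g i - ap P (rs Gᶜ g) i) ^ 2 := by
    unfold DD
    exact Finset.sum_congr rfl (fun i _ => by rw [h1 i]; ring)
  rw [h3, ← rs_sq_sum Gᶜ g]
  exact sub_ap_le hP _

theorem st_PIECE (hLEV : ST_LEVEL) (hPROF : ST_PROF) (hPART : ST_PART) : ST_PIECE := by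
  obtain ⟨C0, hC0, hlev⟩ := hLEV
  obtain ⟨D0, hD0, hprof⟩ := hPROF
  intro β hβ hβ1
  have hββ : β ^ 2 ≤ 1 := by nlinarith
  refine ⟨256 * C0 / β ^ 2, ?_, ?_⟩
  · rw [le_div_iff₀ (by positivity)]
    nlinarith
  intro ε hε hε1
  have hCD : 1 ≤ D0 * C0 := by nlinarith
  set t : ℝ := ε * β ^ 2 / (96 * (D0 * C0)) with ht
  have ht0 : 0 < t := by positivity
  have ht1 : t ≤ 1 := by
    rw [ht, div_le_one (by positivity)]
    nlinarith [mul_le_mul hε1 hββ (by positivity) (by norm_num)]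
  have hte : 96 * (D0 * C0) * t = ε * β ^ 2 := by
    rw [ht]
    field_simp
  set γ : ℝ := t ^ 2 with hγdef
  have hγ : 0 < γ := by positivity
  have hγ1 : γ ≤ 1 := by
    rw [hγdef]
    nlinarith
  have hsq : Real.sqrt γ = t := by
    rw [hγdef]
    exact Real.sqrt_sq ht0.le
  set κ : ℝ := γ ^ 2 * t / 80 with hκdef
  have hκ : 0 < κ := by positivity
  have hκ1 : κ ≤ 1 := by
    rw [hκdef]
    have h1 : γ ^ 2 ≤ 1 := by nlinarith
    have h2 : γ ^ 2 * t ≤ 1 := by nlinarith [sq_nonneg γ]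
    linarith
  refine ⟨γ, κ, 64 * (D0 * C0) / (γ * β ^ 2), hγ, hγ1, hκ, hκ1, ?_, ?_⟩
  · rw [le_div_iff₀ (by positivity)]
    nlinarith [mul_le_mul hγ1 hββ (by positivity) (by norm_num)]
  intro L ι _ P V f ξ hL hP hf hξ hbad
  obtain ⟨s, hs, hm0, hb, hN⟩ := hlev ι V f ξ β L hβ hβ1 hL hξ hbad
  set g : ι → ℝ := fun i => s * f i with hgdef
  set m0 : ℝ := ∑ i ∈ V, |TT (s * f i)| with hm0def
  have hg : ap P g = g := by
    funext i
    rw [hgdef, ap_smul, hf]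
  have hL0 : 0 < L := by linarith
  -- profiles
  have hV := hprof ι V g (C0 * m0 / β) γ (by positivity) hγ hγ1 (by
    intro h
    have h1 := hN h
    have h2 : (0 : ℝ) < (2 : ℝ) ^ h := by positivity
    have h3 : 0 ≤ (2 : ℝ) ^ h * (L * (#(Vᶜ.filter (fun i => (2 : ℝ) ^ (h + 1) ≤ |s * f i|)) : ℝ)) := by
      positivity
    have h4 : C0 * m0 / β * (2 : ℝ) ^ (|(h : ℝ)| / 40)
        = (C0 * (2 : ℝ) ^ (|(h : ℝ)| / 40) * m0) / β := by ring
    rw [h4, le_div_iff₀ hβ]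
    nlinarith)
  have hM := hprof ι Vᶜ g (C0 * m0 / L) γ (by positivity) hγ hγ1 (by
    intro h
    have h1 := hN h
    have h2 : (0 : ℝ) < (2 : ℝ) ^ h := by positivity
    have h3 : 0 ≤ (2 : ℝ) ^ h * (β * (#(V.filter (fun i => (2 : ℝ) ^ (h + 1) ≤ |s * f i|)) : ℝ)) := by
      positivity
    have h4 : C0 * m0 / L * (2 : ℝ) ^ (|(h : ℝ)| / 40)
        = (C0 * (2 : ℝ) ^ (|(h : ℝ)| / 40) * m0) / L := by ring
    rw [h4, le_div_iff₀ hL0]
    nlinarith)
  obtain ⟨hV1, hV2⟩ := hV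
  obtain ⟨hM1, hM2⟩ := hM
  rw [hsq] at hV2 hM2
  set G : Finset ι := univ.filter (fun i => γ ≤ |g i|) with hGdef
  have hLβ : C0 * m0 / L ≤ C0 * m0 / β :=
    div_le_div_of_nonneg_left (by positivity) hβ (by linarith)
  -- the weight of `G`
  have hGV : G ∩ V = V.filter (fun i => γ ≤ |g i|) := by
    ext i
    simp [hGdef, and_comm]
  have hGM : G \ V = Vᶜ.filter (fun i => γ ≤ |g i|) := by
    ext i
    simp [hGdef, and_comm]
  have hnuM : nu g (G \ V) ≤ D0 / γ * (C0 * m0 / L) := by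
    rw [hGM]
    exact hM1
  have hnuG : nu g G ≤ 2 * (D0 * C0) / (γ * β) * m0 := by
    have h1 : nu g G = nu g (G ∩ V) + nu g (G \ V) := by
      unfold nu
      exact (Finset.sum_inter_add_sum_sdiff G V _).symm
    have h2 : nu g (G \ V) ≤ D0 / γ * (C0 * m0 / β) :=
      hnuM.trans (mul_le_mul_of_nonneg_left hLβ (by positivity))
    have h3 : nu g (G ∩ V) ≤ D0 / γ * (C0 * m0 / β) := by
      rw [hGV]
      exact hV1
    have h4 : 2 * (D0 * C0) / (γ * β) * m0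
        = D0 / γ * (C0 * m0 / β) + D0 / γ * (C0 * m0 / β) := by
      field_simp
      ring
    rw [h1, h4]
    linarith
  -- the defect of `G`
  have hDG : DD P g G ≤ 2 * (D0 * C0) * t / β * m0 := by
    refine (DD_large hP g hg G).trans ?_
    have h1 : ∑ i ∈ Gᶜ, g i ^ 2 = ∑ i ∈ V.filter (fun i => |g i| < γ), g i ^ 2
        + ∑ i ∈ Vᶜ.filter (fun i => |g i| < γ), g i ^ 2 := by
      rw [← Finset.sum_inter_add_sum_sdiff Gᶜ V (fun i => g i ^ 2)]
      congr 1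
      · apply Finset.sum_congr _ (fun _ _ => rfl)
        ext i
        simp [hGdef, and_comm]
      · apply Finset.sum_congr _ (fun _ _ => rfl)
        ext i
        simp [hGdef, and_comm]
    have h2 : D0 * t * (C0 * m0 / L) ≤ D0 * t * (C0 * m0 / β) :=
      mul_le_mul_of_nonneg_left hLβ (by positivity)
    have h4 : 2 * (D0 * C0) * t / β * m0 = D0 * t * (C0 * m0 / β) + D0 * t * (C0 * m0 / β) := by
      ring
    rw [h1, h4]
    linarith
  -- the number of medium points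
  have hcard : (#((G ∩ V).filter (fun i => 1 / 2 ≤ |g i|)) : ℝ) ≤ 8 * C0 / β * m0 := by
    have h1 := hN (-2)
    have h2 : (#((G ∩ V).filter (fun i => 1 / 2 ≤ |g i|)) : ℝ)
        ≤ (#(V.filter (fun i => (2 : ℝ) ^ ((-2 : ℤ) + 1) ≤ |s * f i|)) : ℝ) := by
      have h3 : (2 : ℝ) ^ ((-2 : ℤ) + 1) = 1 / 2 := by norm_num
      rw [h3]
      exact_mod_cast Finset.card_le_card (by
        intro i hi
        rw [Finset.mem_filter] at hi ⊢
        exact ⟨(Finset.mem_inter.mp hi.1).2, hi.2⟩)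
    have h3 : 0 ≤ L * (#(Vᶜ.filter (fun i => (2 : ℝ) ^ ((-2 : ℤ) + 1) ≤ |s * f i|)) : ℝ) := by
      positivity
    have h4 : (2 : ℝ) ^ (-2 : ℤ) = 1 / 4 := by norm_num
    have h5 : (2 : ℝ) ^ (|((-2 : ℤ) : ℝ)| / 40) ≤ 2 := by
      have h6 : |((-2 : ℤ) : ℝ)| / 40 ≤ 1 := by
        push_cast
        rw [abs_neg, abs_of_pos (by norm_num : (0 : ℝ) < 2)]
        norm_num
      have h7 := Real.rpow_le_rpow_of_exponent_le (by norm_num : (1 : ℝ) ≤ 2) h6
      rwa [Real.rpow_one] at h7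
    rw [h4] at h1
    have h6 : C0 * (2 : ℝ) ^ (|((-2 : ℤ) : ℝ)| / 40) * m0 ≤ C0 * 2 * m0 := by
      apply mul_le_mul_of_nonneg_right _ hm0.le
      exact mul_le_mul_of_nonneg_left h5 (by linarith)
    have h8 : 8 * C0 / β * m0 = 8 * C0 * m0 / β := by ring
    have h9 := mul_le_mul_of_nonneg_right h2 hβ.le
    rw [h8, le_div_iff₀ hβ]
    set N1 : ℝ := (#(V.filter (fun i => (2 : ℝ) ^ ((-2 : ℤ) + 1) ≤ |s * f i|)) : ℝ)
    set N2 : ℝ := (#(Vᶜ.filter (fun i => (2 : ℝ) ^ ((-2 : ℤ) + 1) ≤ |s * f i|)) : ℝ)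
    set N3 : ℝ := (#((G ∩ V).filter (fun i => 1 / 2 ≤ |g i|)) : ℝ)
    linarith
  -- partition
  obtain ⟨Q, hQ1, hQ2, hQ3, hQ4, hQ5⟩ := hPART ι P g G γ κ hP hγ hγ1 hκ
    (fun i hi => (Finset.mem_filter.mp hi).2)
  have hTT0 : ∀ i, i ∉ G → TT (g i) = 0 := by
    intro i hi
    have h1 : |g i| < γ := by
      by_contra hcon
      exact hi (Finset.mem_filter.mpr ⟨Finset.mem_univ _, not_lt.mp hcon⟩)
    have h2 : |g i| ≤ 1 := by linarith
    have := abs_le.1 h2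
    unfold TT cl
    rw [min_eq_left (by linarith), max_eq_right (by linarith), min_eq_left (by linarith),
      max_eq_right (by linarith)]
    ring
  have hGVsum : ∀ φ : ι → ℝ, (∀ i, i ∉ G → φ i = 0) → ∑ i ∈ G ∩ V, φ i = ∑ i ∈ V, φ i := by
    intro φ hφ
    apply Finset.sum_subset Finset.inter_subset_right
    intro i hi hi2
    apply hφ
    intro hcon
    exact hi2 (Finset.mem_inter.mpr ⟨hcon, hi⟩)
  set e0 : ℝ := 3 * (D0 * C0) * t / β with he0
  set c1 : ℝ := 2 * (D0 * C0) / (γ * β) with hc1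
  set c2 : ℝ := D0 * C0 / γ with hc2
  set c3 : ℝ := 8 * C0 / β with hc3
  have he0p : 0 < e0 := by positivity
  have hc1p : 0 < c1 := by positivity
  have hc2p : 0 < c2 := by positivity
  have hc3p : 0 < c3 := by positivity
  set mm : Finset ι → ℝ := fun Z => ∑ i ∈ Z ∩ V, |TT (g i)| with hmm
  set bb : Finset ι → ℝ := fun Z => ∑ i ∈ Z ∩ V, ξ i * TT (g i) with hbb
  set kk : Finset ι → ℝ := fun Z => (#((Z ∩ V).filter (fun i => 1 / 2 ≤ |g i|)) : ℝ) with hkk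
  have smm : ∑ Z ∈ Q, mm Z = m0 := by
    rw [hmm]
    rw [sum_pieces_inter V hQ2 hQ3 (fun i => |TT (g i)|),
      hGVsum (fun i => |TT (g i)|) (fun i hi => by rw [hTT0 i hi, abs_zero])]
  have sbb : ∑ Z ∈ Q, bb Z = ∑ i ∈ V, ξ i * TT (s * f i) := by
    rw [hbb]
    rw [sum_pieces_inter V hQ2 hQ3 (fun i => ξ i * TT (g i)),
      hGVsum (fun i => ξ i * TT (g i)) (fun i hi => by rw [hTT0 i hi, mul_zero])]
  have skk : ∑ Z ∈ Q, kk Z ≤ c3 * m0 := by
    have h1 : ∑ Z ∈ Q, kk Z = (#((G ∩ V).filter (fun i => 1 / 2 ≤ |g i|)) : ℝ) := by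
      rw [hkk]
      simp only [card_eq_sum]
      exact sum_pieces_inter V hQ2 hQ3 _
    rw [h1]
    exact hcard
  have snu : ∑ Z ∈ Q, nu g Z ≤ c1 * m0 := by
    have h1 : ∑ Z ∈ Q, nu g Z = nu g G := by
      unfold nu
      exact sum_pieces hQ2 hQ3 _
    rw [h1]
    exact hnuG
  have snv : ∑ Z ∈ Q, nu g (Z \ V) ≤ c2 * m0 / L := by
    have h1 : ∑ Z ∈ Q, nu g (Z \ V) = nu g (G \ V) := by
      unfold nu
      exact sum_pieces_sdiff V hQ2 hQ3 _
    rw [h1]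
    refine hnuM.trans (le_of_eq ?_)
    rw [hc2]
    ring
  have sDD : ∑ Z ∈ Q, DD P g Z ≤ e0 * m0 := by
    have h1 : 40 * κ / γ * nu g G ≤ 40 * κ / γ * (c1 * m0) :=
      mul_le_mul_of_nonneg_left hnuG (by positivity)
    have h2 : 40 * κ / γ * (c1 * m0) = (D0 * C0) * t / β * m0 := by
      rw [hκdef, hc1]
      field_simp
      ring
    have h3 : e0 * m0 = 2 * (D0 * C0) * t / β * m0 + (D0 * C0) * t / β * m0 := by
      rw [he0]
      ring
    rw [h3]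
    linarith
  -- averaging
  have havg : 0 < ∑ Z ∈ Q, (bb Z - β / 4 * mm Z - β / 32 * (DD P g Z / e0 + nu g Z / c1
      + L * nu g (Z \ V) / c2 + kk Z / c3)) := by
    have h1 : ∑ Z ∈ Q, (bb Z - β / 4 * mm Z - β / 32 * (DD P g Z / e0 + nu g Z / c1
        + L * nu g (Z \ V) / c2 + kk Z / c3))
        = ∑ Z ∈ Q, bb Z - β / 4 * ∑ Z ∈ Q, mm Z - β / 32 * ((∑ Z ∈ Q, DD P g Z) / e0
          + (∑ Z ∈ Q, nu g Z) / c1 + L * (∑ Z ∈ Q, nu g (Z \ V)) / c2 + (∑ Z ∈ Q, kk Z) / c3) := by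
      simp only [Finset.sum_sub_distrib, ← Finset.mul_sum, Finset.sum_add_distrib,
        ← Finset.sum_div]
    rw [h1, smm, sbb]
    have h2 : (∑ Z ∈ Q, DD P g Z) / e0 ≤ m0 := by
      rw [div_le_iff₀ he0p]
      linarith
    have h3 : (∑ Z ∈ Q, nu g Z) / c1 ≤ m0 := by
      rw [div_le_iff₀ hc1p]
      linarith
    have h4 : L * (∑ Z ∈ Q, nu g (Z \ V)) / c2 ≤ m0 := by
      rw [div_le_iff₀ hc2p]
      have h5 := mul_le_mul_of_nonneg_left snv hL0.le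
      have h6 : L * (c2 * m0 / L) = m0 * c2 := by
        field_simp
      linarith
    have h5 : (∑ Z ∈ Q, kk Z) / c3 ≤ m0 := by
      rw [div_le_iff₀ hc3p]
      linarith
    nlinarith
  obtain ⟨Z, hZ, hZpos⟩ : ∃ Z ∈ Q, 0 < bb Z - β / 4 * mm Z - β / 32 * (DD P g Z / e0
      + nu g Z / c1 + L * nu g (Z \ V) / c2 + kk Z / c3) := by
    by_contra hcon
    push Not at hcon
    have := Finset.sum_nonpos hcon
    linarith
  have hZG : Z ⊆ G := by
    rw [← hQ3]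
    exact Finset.subset_biUnion_of_mem id hZ
  have hDD0 : 0 ≤ DD P g Z / e0 := div_nonneg (DD_nonneg P g Z) he0p.le
  have hnu0 : 0 ≤ nu g Z / c1 := div_nonneg (nu_nonneg g Z) hc1p.le
  have hnv0 : 0 ≤ L * nu g (Z \ V) / c2 :=
    div_nonneg (mul_nonneg hL0.le (nu_nonneg g _)) hc2p.le
  have hkk0 : 0 ≤ kk Z / c3 := div_nonneg (Nat.cast_nonneg _) hc3p.le
  have hmm0 : 0 ≤ mm Z := Finset.sum_nonneg (fun _ _ => abs_nonneg _)
  have hbm : bb Z ≤ mm Z := by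
    apply Finset.sum_le_sum
    intro i hi
    have h1 := hξ i (Finset.mem_inter.mp hi).2
    calc ξ i * TT (g i) ≤ |ξ i * TT (g i)| := le_abs_self _
      _ = |ξ i| * |TT (g i)| := abs_mul _ _
      _ ≤ 1 * |TT (g i)| := mul_le_mul_of_nonneg_right h1 (abs_nonneg _)
      _ = |TT (g i)| := one_mul _
  have hβ32 : 0 < β / 32 := by positivity
  have hsum0 : 0 ≤ β / 32 * (DD P g Z / e0 + nu g Z / c1 + L * nu g (Z \ V) / c2 + kk Z / c3) := by
    positivity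
  have hβm : 0 ≤ β / 4 * mm Z := by positivity
  have hmpos : 0 < mm Z := by linarith
  -- each quantity
  have hone : ∀ x : ℝ, x ≤ DD P g Z / e0 + nu g Z / c1 + L * nu g (Z \ V) / c2 + kk Z / c3 →
      x ≤ 32 / β * mm Z := by
    intro x hx
    have h1 : β / 32 * x ≤ mm Z := by
      have := mul_le_mul_of_nonneg_left hx hβ32.le
      linarith
    have h2 : x = 32 / β * (β / 32 * x) := by
      field_simp
    rw [h2]
    exact mul_le_mul_of_nonneg_left h1 (by positivity)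
  have q1 := hone (DD P g Z / e0) (by linarith)
  have q2 := hone (nu g Z / c1) (by linarith)
  have q3 := hone (L * nu g (Z \ V) / c2) (by linarith)
  have q4 := hone (kk Z / c3) (by linarith)
  rw [div_le_iff₀ he0p] at q1
  rw [div_le_iff₀ hc1p] at q2
  rw [div_le_iff₀ hc2p] at q3
  rw [div_le_iff₀ hc3p] at q4
  refine ⟨g, Z, mm Z, rfl, hmpos, ?_, ?_, hQ4 Z hZ, ?_, ?_, ?_, ?_⟩
  · linarith
  · intro i hi
    exact (Finset.mem_filter.mp (hZG hi)).2
  · refine q2.trans (le_of_eq ?_)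
    rw [hc1]
    field_simp
    ring
  · have h1 : nu g (Z \ V) ≤ 32 / β * mm Z * c2 / L := by
      rw [le_div_iff₀ hL0]
      linarith
    refine h1.trans ?_
    have h2 : 64 * (D0 * C0) / (γ * β ^ 2) / L * mm Z
        = (32 / β * mm Z * c2 / L) * (2 / β) := by
      rw [hc2]
      field_simp
      ring
    rw [h2]
    have h3 : 0 ≤ 32 / β * mm Z * c2 / L := by positivity
    have h4 : 1 ≤ 2 / β := by
      rw [le_div_iff₀ hβ]
      linarith
    nlinarith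
  · refine q1.trans (le_of_eq ?_)
    have h1 : 32 / β * mm Z * e0 = (96 * (D0 * C0) * t) / β ^ 2 * mm Z := by
      rw [he0]
      field_simp
      ring
    rw [h1, hte]
    field_simp
  · refine q4.trans (le_of_eq ?_)
    rw [hc3]
    field_simp
    ring

end

end Pool.Agent.Helper55.ZS
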