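import Pool.Agent.Helper38.ZS.Stmts

/-!
# Zonotope signing, module 2: sums over a profile
-/

namespace Pool.Agent.Helper55.ZS

open Finset Pool.Agent.Helper38.ZS
open scoped Classical

noncomputable section

/-- the ratio of the geometric series -/
def qq : ℝ := (2 : ℝ) ^ (-(1 / 40 : ℝ))

lemma qq_pos : 0 < qq := by unfold qq; positivity

lemma qq_lt : qq < 1 := by
  unfold qq
  exact Real.rpow_lt_one_of_one_lt_of_neg (by norm_num) (by norm_num)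

lemma sum_nat (S : Finset ℕ) : ∑ k ∈ S, qq ^ k ≤ (1 - qq)⁻¹ :=
  sum_le_hasSum S (fun _ _ => pow_nonneg qq_pos.le _)
    (hasSum_geometric_of_lt_one qq_pos.le qq_lt)

lemma qq_natAbs (h : ℤ) : (2 : ℝ) ^ (-(|(h : ℝ)| / 40)) = qq ^ h.natAbs := by
  unfold qq
  rw [← Real.rpow_natCast, ← Real.rpow_mul (by norm_num : (0 : ℝ) ≤ 2)]
  congr 1
  rw [Nat.cast_natAbs, Int.cast_abs]
  ring

lemma sum_int (H : Finset ℤ) : ∑ h ∈ H, (2 : ℝ) ^ (-(|(h : ℝ)| / 40)) ≤ 2 * (1 - qq)⁻¹ := by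
  have h1 : ∑ h ∈ H, (2 : ℝ) ^ (-(|(h : ℝ)| / 40)) = ∑ h ∈ H, qq ^ h.natAbs :=
    Finset.sum_congr rfl (fun h _ => qq_natAbs h)
  rw [h1, ← Finset.sum_filter_add_sum_filter_not H (fun h : ℤ => 0 ≤ h)]
  have h2 : ∑ h ∈ H.filter (fun h : ℤ => 0 ≤ h), qq ^ h.natAbs ≤ (1 - qq)⁻¹ := by
    have h3 : ∑ k ∈ (H.filter (fun h : ℤ => 0 ≤ h)).image Int.natAbs, qq ^ k
        = ∑ h ∈ H.filter (fun h : ℤ => 0 ≤ h), qq ^ h.natAbs := by
      apply Finset.sum_image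
      intro x hx y hy hxy
      have hx' := (Finset.mem_filter.mp (Finset.mem_coe.mp hx)).2
      have hy' := (Finset.mem_filter.mp (Finset.mem_coe.mp hy)).2
      have hxy' : x.natAbs = y.natAbs := hxy
      omega
    rw [← h3]
    exact sum_nat _
  have h4 : ∑ h ∈ H.filter (fun h : ℤ => ¬ 0 ≤ h), qq ^ h.natAbs ≤ (1 - qq)⁻¹ := by
    have h3 : ∑ k ∈ (H.filter (fun h : ℤ => ¬ 0 ≤ h)).image Int.natAbs, qq ^ k
        = ∑ h ∈ H.filter (fun h : ℤ => ¬ 0 ≤ h), qq ^ h.natAbs := by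
      apply Finset.sum_image
      intro x hx y hy hxy
      have hx' := (Finset.mem_filter.mp (Finset.mem_coe.mp hx)).2
      have hy' := (Finset.mem_filter.mp (Finset.mem_coe.mp hy)).2
      have hxy' : x.natAbs = y.natAbs := hxy
      omega
    rw [← h3]
    exact sum_nat _
  linarith

/-- the dyadic level: `2 ^ (hh x + 1) ≤ |x| < 2 ^ (hh x + 2)` -/
def hh (x : ℝ) : ℤ := Int.log 2 |x| - 1

lemma hh_le (x : ℝ) (hx : x ≠ 0) : (2 : ℝ) ^ (hh x + 1) ≤ |x| := by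
  unfold hh
  have := Int.zpow_log_le_self (b := 2) (r := |x|) (by norm_num) (abs_pos.mpr hx)
  simpa using this

lemma lt_hh (x : ℝ) : |x| < (2 : ℝ) ^ (hh x + 2) := by
  unfold hh
  have := Int.lt_zpow_succ_log_self (b := 2) (by norm_num) |x|
  have h1 : Int.log 2 |x| - 1 + 2 = Int.log 2 |x| + 1 := by ring
  rw [h1]
  simpa using this

lemma layer {ι : Type} (X Y : Finset ι) (g : ι → ℝ) (A B : ℝ) (hA : 0 ≤ A) (hB1 : 0 ≤ B)
    (hyp : ∀ h : ℤ, (2 : ℝ) ^ h * (#(X.filter (fun i => (2 : ℝ) ^ (h + 1) ≤ |g i|)) : ℝ)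
      ≤ A * (2 : ℝ) ^ (|(h : ℝ)| / 40)) (hY : Y ⊆ X) (hne : ∀ i ∈ Y, g i ≠ 0)
    (F : ℤ → ℝ) (hF : ∀ h, 0 ≤ F h)
    (hB : ∀ i ∈ Y, F (hh (g i)) * ((2 : ℝ) ^ (|(hh (g i) : ℝ)| / 40) * (2 : ℝ) ^ (-(hh (g i))))
      ≤ B * (2 : ℝ) ^ (-(|(hh (g i) : ℝ)| / 40))) :
    ∑ i ∈ Y, F (hh (g i)) ≤ A * B * (2 * (1 - qq)⁻¹) := by
  have h1 : ∑ i ∈ Y, F (hh (g i)) = ∑ h ∈ Y.image (fun i => hh (g i)),
      (#(Y.filter (fun i => hh (g i) = h)) : ℝ) * F h := by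
    rw [← Finset.sum_fiberwise_of_maps_to (s := Y) (t := Y.image (fun i => hh (g i)))
      (g := fun i => hh (g i)) (fun i hi => Finset.mem_image_of_mem _ hi)]
    apply Finset.sum_congr rfl
    intro h _
    rw [Finset.sum_congr rfl (g := fun _ => F h)]
    · rw [Finset.sum_const, nsmul_eq_mul]
    · intro i hi
      rw [(Finset.mem_filter.mp hi).2]
  rw [h1]
  have hB0 : ∀ h ∈ Y.image (fun i => hh (g i)),
      (#(Y.filter (fun i => hh (g i) = h)) : ℝ) * F h ≤ A * B * (2 : ℝ) ^ (-(|(h : ℝ)| / 40)) := by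
    intro h hh'
    obtain ⟨i, hi, rfl⟩ := Finset.mem_image.mp hh'
    set h := hh (g i) with hdef
    have h2 : (#(Y.filter (fun j => hh (g j) = h)) : ℝ)
        ≤ (#(X.filter (fun j => (2 : ℝ) ^ (h + 1) ≤ |g j|)) : ℝ) := by
      apply Nat.cast_le.mpr
      apply Finset.card_le_card
      intro j hj
      obtain ⟨hj1, hj2⟩ := Finset.mem_filter.mp hj
      refine Finset.mem_filter.mpr ⟨hY hj1, ?_⟩
      rw [← hj2]
      exact hh_le _ (hne j hj1)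
    have h3 : (#(X.filter (fun j => (2 : ℝ) ^ (h + 1) ≤ |g j|)) : ℝ)
        ≤ A * (2 : ℝ) ^ (|(h : ℝ)| / 40) * (2 : ℝ) ^ (-h) := by
      have h4 := hyp h
      have h5 : (0 : ℝ) < (2 : ℝ) ^ (-h) := by positivity
      calc (#(X.filter (fun j => (2 : ℝ) ^ (h + 1) ≤ |g j|)) : ℝ)
          = ((2 : ℝ) ^ h * (#(X.filter (fun j => (2 : ℝ) ^ (h + 1) ≤ |g j|)) : ℝ)) * (2 : ℝ) ^ (-h) := by
            rw [zpow_neg]
            field_simp
        _ ≤ _ := mul_le_mul_of_nonneg_right h4 h5.le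
    have h6 := hB i hi
    rw [← hdef] at h6
    calc (#(Y.filter (fun j => hh (g j) = h)) : ℝ) * F h
        ≤ (A * (2 : ℝ) ^ (|(h : ℝ)| / 40) * (2 : ℝ) ^ (-h)) * F h :=
          mul_le_mul_of_nonneg_right (h2.trans h3) (hF h)
      _ = A * (F h * ((2 : ℝ) ^ (|(h : ℝ)| / 40) * (2 : ℝ) ^ (-h))) := by ring
      _ ≤ A * (B * (2 : ℝ) ^ (-(|(h : ℝ)| / 40))) := mul_le_mul_of_nonneg_left h6 hA
      _ = A * B * (2 : ℝ) ^ (-(|(h : ℝ)| / 40)) := by ring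
  refine (Finset.sum_le_sum hB0).trans ?_
  rw [← Finset.mul_sum]
  exact mul_le_mul_of_nonneg_left (sum_int _) (mul_nonneg hA hB1)

lemma two_zpow (h : ℤ) : (2 : ℝ) ^ h = (2 : ℝ) ^ (h : ℝ) := (Real.rpow_intCast 2 h).symm

lemma cond1 (x γ : ℝ) (h : ℤ) (hγ : 0 < γ) (hγ1 : γ ≤ 1) (hx : γ ≤ |x|)
    (hxh : |x| < (2 : ℝ) ^ (h + 2)) :
    ((2 : ℝ) ^ (h + 2)) ^ (19 / 20 : ℝ) * ((2 : ℝ) ^ (|(h : ℝ)| / 40) * (2 : ℝ) ^ (-h))
      ≤ 16 / γ * (2 : ℝ) ^ (-(|(h : ℝ)| / 40)) := by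
  have h0 : (0 : ℝ) < 2 := by norm_num
  have e1 : ((2 : ℝ) ^ (h + 2)) ^ (19 / 20 : ℝ) = (2 : ℝ) ^ (((h : ℝ) + 2) * (19 / 20)) := by
    rw [two_zpow, ← Real.rpow_mul h0.le]
    push_cast
    rfl
  have e2 : (2 : ℝ) ^ (-h) = (2 : ℝ) ^ (-(h : ℝ)) := by
    rw [two_zpow]
    push_cast
    rfl
  rw [e1, e2, ← Real.rpow_add h0, ← Real.rpow_add h0]
  have hg : (2 : ℝ) ^ (2 - (h : ℝ)) ≤ 16 / γ := by
    rw [le_div_iff₀ hγ]
    have h1 : γ ≤ (2 : ℝ) ^ ((h : ℝ) + 2) := by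
      have := (hx.trans hxh.le)
      rw [two_zpow] at this
      push_cast at this
      exact this
    calc (2 : ℝ) ^ (2 - (h : ℝ)) * γ ≤ (2 : ℝ) ^ (2 - (h : ℝ)) * (2 : ℝ) ^ ((h : ℝ) + 2) :=
          mul_le_mul_of_nonneg_left h1 (by positivity)
      _ = 16 := by
          rw [← Real.rpow_add h0]
          have : 2 - (h : ℝ) + ((h : ℝ) + 2) = (4 : ℕ) := by push_cast; ring
          rw [this, Real.rpow_natCast]
          norm_num
  have h4 : (4 : ℝ) ≤ 16 / γ := by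
    rw [le_div_iff₀ hγ]
    linarith
  rcases le_or_gt 0 h with hh0 | hh0
  · have hx0 : (0 : ℝ) ≤ (h : ℝ) := by exact_mod_cast hh0
    rw [abs_of_nonneg hx0]
    have e3 : ((h : ℝ) + 2) * (19 / 20) + ((h : ℝ) / 40 + -(h : ℝ))
        = 19 / 10 + -((h : ℝ) / 40) := by ring
    rw [e3, Real.rpow_add h0]
    apply mul_le_mul_of_nonneg_right _ (by positivity)
    have h5 : (2 : ℝ) ^ (19 / 10 : ℝ) ≤ (2 : ℝ) ^ (2 : ℝ) :=
      Real.rpow_le_rpow_of_exponent_le (by norm_num) (by norm_num)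
    have h6 : (2 : ℝ) ^ (2 : ℝ) = 4 := by
      rw [Real.rpow_two]
      norm_num
    linarith
  · have hx0 : (h : ℝ) < 0 := by exact_mod_cast hh0
    rw [abs_of_neg hx0]
    have e3 : ((h : ℝ) + 2) * (19 / 20) + (-(h : ℝ) / 40 + -(h : ℝ))
        = (19 / 10 - (h : ℝ) / 10) + -(-(h : ℝ) / 40) := by ring
    rw [e3, Real.rpow_add h0]
    apply mul_le_mul_of_nonneg_right _ (by positivity)
    refine le_trans ?_ hg
    apply Real.rpow_le_rpow_of_exponent_le (by norm_num)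
    linarith

lemma cond2 (x γ : ℝ) (h : ℤ) (hγ1 : γ ≤ 1) (hx : |x| < γ)
    (hxh : (2 : ℝ) ^ (h + 1) ≤ |x|) :
    ((2 : ℝ) ^ (h + 2)) ^ 2 * ((2 : ℝ) ^ (|(h : ℝ)| / 40) * (2 : ℝ) ^ (-h))
      ≤ 16 * Real.sqrt γ * (2 : ℝ) ^ (-(|(h : ℝ)| / 40)) := by
  have h0 : (0 : ℝ) < 2 := by norm_num
  have h1 : (2 : ℝ) ^ ((h : ℝ) + 1) < γ := by
    have := hxh.trans_lt hx
    rw [two_zpow] at this
    push_cast at this
    exact this
  have hx0 : (h : ℝ) < 0 := by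
    by_contra hcon
    push Not at hcon
    have h2 : (2 : ℝ) ^ (0 : ℝ) ≤ (2 : ℝ) ^ ((h : ℝ) + 1) :=
      Real.rpow_le_rpow_of_exponent_le (by norm_num) (by linarith)
    rw [Real.rpow_zero] at h2
    linarith
  have e1 : ((2 : ℝ) ^ (h + 2)) ^ 2 = (2 : ℝ) ^ (2 * (h : ℝ)) * 16 := by
    rw [two_zpow, ← Real.rpow_natCast, ← Real.rpow_mul h0.le]
    have : ((h + 2 : ℤ) : ℝ) * ((2 : ℕ) : ℝ) = 2 * (h : ℝ) + (4 : ℕ) := by push_cast; ring
    rw [this, Real.rpow_add h0, Real.rpow_natCast]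
    norm_num
  have e2 : (2 : ℝ) ^ (-h) = (2 : ℝ) ^ (-(h : ℝ)) := by
    rw [two_zpow]
    push_cast
    rfl
  have hs : (2 : ℝ) ^ (((h : ℝ) + 1) / 2) ≤ Real.sqrt γ := by
    apply Real.le_sqrt_of_sq_le
    rw [← Real.rpow_natCast, ← Real.rpow_mul h0.le]
    have : ((h : ℝ) + 1) / 2 * ((2 : ℕ) : ℝ) = (h : ℝ) + 1 := by push_cast; ring
    rw [this]
    exact h1.le
  rw [e1, e2, abs_of_neg hx0]
  have e3 : (2 : ℝ) ^ (2 * (h : ℝ)) * 16 * ((2 : ℝ) ^ (-(h : ℝ) / 40) * (2 : ℝ) ^ (-(h : ℝ)))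
      = 16 * (2 : ℝ) ^ (19 * (h : ℝ) / 20) * (2 : ℝ) ^ (-(-(h : ℝ) / 40)) := by
    have a1 : (2 : ℝ) ^ (2 * (h : ℝ)) * 16 * ((2 : ℝ) ^ (-(h : ℝ) / 40) * (2 : ℝ) ^ (-(h : ℝ)))
        = 16 * ((2 : ℝ) ^ (2 * (h : ℝ)) * (2 : ℝ) ^ (-(h : ℝ) / 40) * (2 : ℝ) ^ (-(h : ℝ))) := by ring
    have a2 : 16 * (2 : ℝ) ^ (19 * (h : ℝ) / 20) * (2 : ℝ) ^ (-(-(h : ℝ) / 40))
        = 16 * ((2 : ℝ) ^ (19 * (h : ℝ) / 20) * (2 : ℝ) ^ (-(-(h : ℝ) / 40))) := by ring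
    rw [a1, a2, ← Real.rpow_add h0, ← Real.rpow_add h0, ← Real.rpow_add h0]
    congr 2
    ring
  rw [e3]
  apply mul_le_mul_of_nonneg_right _ (by positivity)
  apply mul_le_mul_of_nonneg_left _ (by norm_num)
  refine le_trans ?_ hs
  apply Real.rpow_le_rpow_of_exponent_le (by norm_num)
  linarith

theorem st_PROF : ST_PROF := by
  refine ⟨max 1 (16 * (2 * (1 - qq)⁻¹)), le_max_left _ _, ?_⟩
  intro ι _ X g A γ hA hγ hγ1 hyp
  have hq : 0 < (1 - qq)⁻¹ := inv_pos.mpr (by linarith [qq_lt])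
  constructor
  · have h1 := layer X (X.filter (fun i => γ ≤ |g i|)) g A (16 / γ) hA (by positivity) hyp
      (Finset.filter_subset _ _)
      (fun i hi => by
        have := (Finset.mem_filter.mp hi).2
        intro h0
        rw [h0, abs_zero] at this
        linarith)
      (fun h => ((2 : ℝ) ^ (h + 2)) ^ (19 / 20 : ℝ)) (fun h => by positivity)
      (fun i hi => cond1 (g i) γ (hh (g i)) hγ hγ1 (Finset.mem_filter.mp hi).2 (lt_hh _))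
    have h2 : nu g (X.filter (fun i => γ ≤ |g i|))
        ≤ ∑ i ∈ X.filter (fun i => γ ≤ |g i|), ((2 : ℝ) ^ (hh (g i) + 2)) ^ (19 / 20 : ℝ) := by
      unfold nu
      apply Finset.sum_le_sum
      intro i _
      exact Real.rpow_le_rpow (abs_nonneg _) (lt_hh _).le (by norm_num)
    refine (h2.trans h1).trans ?_
    have h3 : A * (16 / γ) * (2 * (1 - qq)⁻¹) = (16 * (2 * (1 - qq)⁻¹)) / γ * A := by ring
    rw [h3]
    apply mul_le_mul_of_nonneg_right _ hA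
    exact div_le_div_of_nonneg_right (le_max_right _ _) hγ.le
  · have h1 := layer X (X.filter (fun i => |g i| < γ ∧ g i ≠ 0)) g A (16 * Real.sqrt γ) hA
      (by positivity) hyp (Finset.filter_subset _ _)
      (fun i hi => (Finset.mem_filter.mp hi).2.2)
      (fun h => ((2 : ℝ) ^ (h + 2)) ^ 2) (fun h => by positivity)
      (fun i hi => cond2 (g i) γ (hh (g i)) hγ1 (Finset.mem_filter.mp hi).2.1
        (hh_le _ (Finset.mem_filter.mp hi).2.2))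
    have h2 : ∑ i ∈ X.filter (fun i => |g i| < γ), g i ^ 2
        ≤ ∑ i ∈ X.filter (fun i => |g i| < γ ∧ g i ≠ 0), ((2 : ℝ) ^ (hh (g i) + 2)) ^ 2 := by
      have h3 : ∑ i ∈ X.filter (fun i => |g i| < γ ∧ g i ≠ 0), g i ^ 2
          = ∑ i ∈ X.filter (fun i => |g i| < γ), g i ^ 2 := by
        apply Finset.sum_subset
        · intro i hi
          obtain ⟨hi1, hi2⟩ := Finset.mem_filter.mp hi
          exact Finset.mem_filter.mpr ⟨hi1, hi2.1⟩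
        · intro i hi hi'
          obtain ⟨hi1, hi2⟩ := Finset.mem_filter.mp hi
          by_cases h0 : g i = 0
          · rw [h0]
            norm_num
          · exact absurd (Finset.mem_filter.mpr ⟨hi1, hi2, h0⟩) hi'
      rw [← h3]
      apply Finset.sum_le_sum
      intro i _
      rw [← sq_abs]
      exact pow_le_pow_left₀ (abs_nonneg _) (lt_hh _).le 2
    refine (h2.trans h1).trans ?_
    have h3 : A * (16 * Real.sqrt γ) * (2 * (1 - qq)⁻¹)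
        = (16 * (2 * (1 - qq)⁻¹)) * Real.sqrt γ * A := by ring
    rw [h3]
    apply mul_le_mul_of_nonneg_right _ hA
    exact mul_le_mul_of_nonneg_right (le_max_right _ _) (Real.sqrt_nonneg _)

end

end Pool.Agent.Helper55.ZS
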